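import Pool.Agent.Q295.PN.StmA

/-!
# Project PL (S19391), job CH

The first `M` points of a longest chain above `x`, and the effect of opening a point between two
successive ones.
-/

set_option autoImplicit false

namespace Pool.Agent.Q150.PL

open Finset Pool.Agent.Q295.PN

section

variable {ι : Type} [Fintype ι] [DecidableEq ι] [PartialOrder ι]

lemma mem_op (κ : ι → Bool) (y : ι) : y ∈ op κ ↔ κ y = true := by simp [op]

/-- A longer chain through an open point above `a`. -/
lemma Fw_succ_le (hMC : S_MC) (κ : ι → Bool) {a b : ι} (hab : a < b) (hb : κ b = true) :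
    Fw b κ + 1 ≤ Fw a κ := by
  classical
  obtain ⟨h1, h2, h3, h4, h5, h6⟩ := hMC ι
  obtain ⟨C, hC, hch, hcard⟩ := h3 ((op κ).filter (fun y => b < y))
  have hbC : b ∉ C := by
    intro h
    have := (mem_filter.1 (hC h)).2
    exact lt_irrefl _ this
  have h7 : (insert b C).card ≤ mc ((op κ).filter (fun y => a < y)) := by
    apply h4
    · intro y hy
      rcases mem_insert.1 hy with rfl | hy
      · exact mem_filter.2 ⟨(mem_op κ _).2 hb, hab⟩
      · have := mem_filter.1 (hC hy)
        exact mem_filter.2 ⟨this.1, hab.trans this.2⟩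
    · rw [coe_insert]
      apply hch.insert
      intro y hy _
      left
      exact (mem_filter.1 (hC hy)).2.le
  rw [card_insert_of_notMem hbC, hcard] at h7
  have e1 : Fw b κ = mc ((op κ).filter (fun y => b < y)) := by
    unfold Fw; congr 1
  have e2 : Fw a κ = mc ((op κ).filter (fun y => a < y)) := by
    unfold Fw; congr 1
  rw [e1, e2]; exact h7

/-- The least point of a longest chain. -/
lemma exists_next (hMC : S_MC) (κ : ι → Bool) (a : ι) (ha : 1 ≤ Fw a κ) :
    ∃ b, a < b ∧ κ b = true ∧ Fw b κ + 1 = Fw a κ := by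
  classical
  obtain ⟨h1, h2, h3, h4, h5, h6⟩ := hMC ι
  obtain ⟨C, hC, hch, hcard⟩ := h3 ((op κ).filter (fun y => a < y))
  have e2 : Fw a κ = mc ((op κ).filter (fun y => a < y)) := by
    unfold Fw; congr 1
  rw [← e2] at hcard
  have hne : C.Nonempty := by
    rw [← card_pos]; omega
  obtain ⟨b, hbC, hbmin⟩ := C.exists_minimal hne
  have hb := mem_filter.1 (hC hbC)
  have hbo : κ b = true := (mem_op κ _).1 hb.1
  refine ⟨b, hb.2, hbo, le_antisymm (Fw_succ_le hMC κ hb.2 hbo) ?_⟩
  have e1 : Fw b κ = mc ((op κ).filter (fun y => b < y)) := by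
    unfold Fw; congr 1
  have h7 : (C.erase b).card ≤ mc ((op κ).filter (fun y => b < y)) := by
    apply h4
    · intro y hy
      obtain ⟨hyb, hyC⟩ := mem_erase.1 hy
      refine mem_filter.2 ⟨(mem_filter.1 (hC hyC)).1, ?_⟩
      rcases hch hbC hyC (Ne.symm hyb) with h | h
      · exact lt_of_le_of_ne h (Ne.symm hyb)
      · exact absurd (le_antisymm h (hbmin hyC h)) hyb
    · exact hch.mono (by simpa using fun y hy => (mem_erase.1 hy).2)
  rw [card_erase_of_mem hbC, hcard, ← e1] at h7
  omega

lemma op_update_true (κ : ι → Bool) (w : ι) : op (Function.update κ w true) = insert w (op κ) := by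
  ext y
  by_cases h : y = w
  · subst h; simp [op]
  · simp [op, h]

lemma op_subset_update (κ : ι → Bool) (w : ι) : op κ ⊆ op (Function.update κ w true) := by
  rw [op_update_true]; exact subset_insert _ _

lemma Fw_le_update (hMC : S_MC) (κ : ι → Bool) (w a : ι) :
    Fw a κ ≤ Fw a (Function.update κ w true) := by
  classical
  obtain ⟨h1, h2, h3, h4, h5, h6⟩ := hMC ι
  unfold Fw
  exact h1 _ _ (filter_subset_filter _ (op_subset_update κ w))

lemma Fw_update_le (hMC : S_MC) (κ : ι → Bool) (w a : ι) :
    Fw a (Function.update κ w true) ≤ Fw a κ + 1 := by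
  classical
  obtain ⟨h1, h2, h3, h4, h5, h6⟩ := hMC ι
  unfold Fw
  refine le_trans (h1 _ (insert w ((op κ).filter (fun y => a < y))) ?_) ?_
  · intro y hy
    rw [mem_filter, op_update_true, mem_insert] at hy
    rcases hy with ⟨rfl | h, h'⟩
    · exact mem_insert_self _ _
    · exact mem_insert_of_mem (mem_filter.2 ⟨h, h'⟩)
  · refine le_trans (h2 _ _) (le_of_eq ?_)
    congr 2

lemma Bw_update_eq (κ : ι → Bool) (w a : ι) (b : Bool) (h : a < w) :
    Bw a (Function.update κ w b) = Bw a κ := by
  classical
  unfold Bw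
  congr 1
  ext y
  simp only [mem_filter, op, mem_univ, true_and]
  constructor
  · rintro ⟨h1, h2⟩
    refine ⟨?_, h2⟩
    rwa [Function.update_of_ne] at h1
    rintro rfl
    exact lt_asymm h h2
  · rintro ⟨h1, h2⟩
    refine ⟨?_, h2⟩
    rwa [Function.update_of_ne]
    rintro rfl
    exact lt_asymm h h2

lemma chain_exists (hMC : S_MC) (x : ι) (κ : ι → Bool) : ∀ M : ℕ, M ≤ Fw x κ →
    ∃ z : ℕ → ι, z 0 = x ∧ (∀ i < M, z i < z (i + 1) ∧ κ (z (i + 1)) = true) ∧
      (∀ i ≤ M, Fw (z i) κ + i = Fw x κ) := by
  intro M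
  induction M with
  | zero =>
    intro _
    refine ⟨fun _ => x, rfl, fun i hi => absurd hi (Nat.not_lt_zero _), fun i hi => ?_⟩
    have : i = 0 := by omega
    subst this; rfl
  | succ M ih =>
    intro hM
    obtain ⟨z, h0, h1, h2⟩ := ih (by omega)
    have h3 := h2 M le_rfl
    obtain ⟨b, hb1, hb2, hb3⟩ := exists_next hMC κ (z M) (by omega)
    refine ⟨fun i => if i = M + 1 then b else z i, ?_, ?_, ?_⟩
    · simp [h0]
    · intro i hi
      rcases Nat.lt_succ_iff_lt_or_eq.1 hi with h | h
      · have e1 : i ≠ M + 1 := by omega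
        have e2 : i + 1 ≠ M + 1 := by omega
        simp only [e1, e2, if_false]
        exact h1 i h
      · subst h
        have e1 : i ≠ i + 1 := by omega
        simp only [e1, if_false, if_true]
        exact ⟨hb1, hb2⟩
    · intro i hi
      rcases Nat.le_succ_iff.1 hi with h | h
      · have e1 : i ≠ M + 1 := by omega
        simp only [e1, if_false]
        exact h2 i h
      · subst h
        simp only [if_true]
        omega

/-- JOB CH. -/
theorem ch : S_CH := by
  intro hMC ι _ _ _ x κ M hM
  obtain ⟨z, h0, h1, h2⟩ := chain_exists hMC x κ M hM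
  refine ⟨z, h0, h1, h2, ?_⟩
  intro i hi w hw1 hw2
  have hw : κ w = false := by
    by_contra hc
    have hc : κ w = true := by simpa using hc
    have e1 := Fw_succ_le hMC κ hw1 hc
    have e2 := Fw_succ_le hMC κ hw2 (h1 i hi).2
    have e3 := h2 i hi.le
    have e4 := h2 (i + 1) hi
    omega
  set κ' := Function.update κ w true with hκ'
  have hmono : ∀ a, Fw a κ ≤ Fw a κ' := fun a => Fw_le_update hMC κ w a
  have hopen : ∀ a, κ a = true → κ' a = true := by
    intro a ha
    by_cases h : a = w
    · subst h; simp [hκ']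
    · simp [hκ', h, ha]
  have hwo : κ' w = true := by simp [hκ']
  have hup : ∀ k, k ≤ i → Fw (z (i - k)) κ + 1 ≤ Fw (z (i - k)) κ' := by
    intro k
    induction k with
    | zero =>
      intro _
      simp only [Nat.sub_zero]
      have e1 := Fw_succ_le hMC κ' hw1 hwo
      have e2 := Fw_succ_le hMC κ' hw2 (hopen _ (h1 i hi).2)
      have e3 := h2 i hi.le
      have e4 := h2 (i + 1) hi
      have e5 := hmono (z (i + 1))
      omega
    | succ k ih =>
      intro hk
      have h3 := ih (by omega)
      have h4 := h1 (i - (k + 1)) (by omega)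
      have e : i - (k + 1) + 1 = i - k := by omega
      rw [e] at h4
      have e1 := Fw_succ_le hMC κ' h4.1 (hopen _ h4.2)
      have e3 := h2 (i - k) (by omega)
      have e4 := h2 (i - (k + 1)) (by omega)
      omega
  have hx1 : Fw x κ + 1 ≤ Fw x κ' := by
    have := hup i le_rfl
    rwa [Nat.sub_self, h0] at this
  have hx2 : Fw x κ' = Fw x κ + 1 := le_antisymm (Fw_update_le hMC κ w x) hx1
  have hzle : ∀ j, j ≤ i → x ≤ z j := by
    intro j
    induction j with
    | zero => intro _; rw [h0]
    | succ j ih =>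
      intro hj
      exact (ih (by omega)).trans (h1 j (by omega)).1.le
  have hxw : x < w := lt_of_le_of_lt (hzle i le_rfl) hw1
  refine ⟨hw, hx2, Bw_update_eq κ w x true hxw, hxw, hwo, ?_, ?_⟩
  · have e : Function.update κ' w false = κ := by
      rw [hκ', Function.update_idem, ← hw, Function.update_eq_self]
    rw [e, hx2]
  · have e1 := Fw_succ_le hMC κ' hw2 (hopen _ (h1 i hi).2)
    have e4 := h2 (i + 1) hi
    have e5 := hmono (z (i + 1))
    omega

end

end Pool.Agent.Q150.PL
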