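import Pool.Agent.Q295.PN.StmA

/-!
# Project PL (S19391), job L1

Level one inequality for functions with bounded ratios.
-/

set_option autoImplicit false

namespace Pool.Agent.Q150.PL

open Finset Pool.Agent.Q295.PN

section

variable {ι : Type} [Fintype ι] [DecidableEq ι]

lemma wt_pos {p : ℝ} (h0 : 0 < p) (h1 : p < 1) (κ : ι → Bool) : 0 < wt p κ := by
  unfold wt
  apply prod_pos
  intro i _
  split_ifs <;> linarith

lemma Ex_add (p : ℝ) (f g : (ι → Bool) → ℝ) :
    Ex p (fun κ => f κ + g κ) = Ex p f + Ex p g := by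
  unfold Ex
  rw [← sum_add_distrib]
  exact sum_congr rfl fun κ _ => by ring

lemma Ex_mul_left (p c : ℝ) (f : (ι → Bool) → ℝ) :
    Ex p (fun κ => c * f κ) = c * Ex p f := by
  unfold Ex
  rw [mul_sum]
  exact sum_congr rfl fun κ _ => by ring

lemma Ex_sum {α : Type*} (p : ℝ) (s : Finset α) (f : α → (ι → Bool) → ℝ) :
    Ex p (fun κ => ∑ a ∈ s, f a κ) = ∑ a ∈ s, Ex p (f a) := by
  unfold Ex
  rw [sum_comm]
  exact sum_congr rfl fun κ _ => by rw [mul_sum]

lemma Ex_mono {p : ℝ} (h0 : 0 < p) (h1 : p < 1) {f g : (ι → Bool) → ℝ} (h : ∀ κ, f κ ≤ g κ) :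
    Ex p f ≤ Ex p g := by
  unfold Ex
  exact sum_le_sum fun κ _ => mul_le_mul_of_nonneg_left (h κ) (wt_pos h0 h1 κ).le

/-- Product formula. -/
lemma Ex_prod (p : ℝ) (φ : ι → Bool → ℝ) :
    Ex p (fun κ => ∏ i, φ i (κ i)) = ∏ i, (p * φ i true + (1 - p) * φ i false) := by
  have h := Finset.prod_univ_sum (fun _ : ι => (univ : Finset Bool))
    (fun i b => (if b = true then p else 1 - p) * φ i b)
  rw [Fintype.piFinset_univ] at h
  have h2 : ∏ i, (p * φ i true + (1 - p) * φ i false) =
      ∏ i, ∑ b : Bool, (if b = true then p else 1 - p) * φ i b := by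
    refine prod_congr rfl fun i _ => ?_
    rw [Fintype.sum_bool]
    simp
  rw [h2, h]
  unfold Ex wt
  exact sum_congr rfl fun κ _ => by rw [← prod_mul_distrib]

lemma Ex_const (p c : ℝ) : Ex p (fun _ : ι → Bool => c) = c := by
  have h := Ex_prod (ι := ι) p (fun _ _ => 1)
  simp only [prod_const_one, mul_one] at h
  have h2 : Ex p (fun _ : ι → Bool => c) = c * Ex p (fun _ : ι → Bool => 1) := by
    rw [← Ex_mul_left]; simp
  rw [h2, h]; simp

/-- Sum over the two values of one coordinate. -/
lemma sum_two (y : ι) (G : (ι → Bool) → ℝ) :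
    2 * ∑ κ, G κ = ∑ κ, (G (Function.update κ y true) + G (Function.update κ y false)) := by
  have hinv : Function.Involutive (fun κ : ι → Bool => Function.update κ y (!(κ y))) := by
    intro κ
    funext i
    by_cases h : i = y
    · subst h; simp
    · simp [h]
  have h1 : ∑ κ, G (Function.update κ y (!(κ y))) = ∑ κ, G κ :=
    Equiv.sum_comp hinv.toPerm G
  have h2 : ∀ κ : ι → Bool, G (Function.update κ y true) + G (Function.update κ y false) =
      G κ + G (Function.update κ y (!(κ y))) := by
    intro κ
    rcases hb : κ y with _ | _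
    · have e : Function.update κ y false = κ := by rw [← hb, Function.update_eq_self]
      rw [e, add_comm]; rfl
    · have e : Function.update κ y true = κ := by rw [← hb, Function.update_eq_self]
      rw [e]; rfl
  rw [sum_congr rfl fun κ _ => h2 κ, sum_add_distrib, h1, two_mul]

/-- Weight of the other coordinates. -/
noncomputable def wo (p : ℝ) (y : ι) (κ : ι → Bool) : ℝ :=
  ∏ i ∈ univ.erase y, (if κ i = true then p else 1 - p)

lemma wt_update (p : ℝ) (y : ι) (κ : ι → Bool) (b : Bool) :
    wt p (Function.update κ y b) = (if b = true then p else 1 - p) * wo p y κ := by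
  unfold wt wo
  rw [← mul_prod_erase univ _ (mem_univ y)]
  congr 1
  · simp
  · refine prod_congr rfl fun i hi => ?_
    rw [Function.update_of_ne (ne_of_mem_erase hi)]

/-- Conditioning on all coordinates except `y`. -/
lemma Ex_split (p : ℝ) (y : ι) (F : (ι → Bool) → ℝ) :
    Ex p F = Ex p (fun κ => p * F (Function.update κ y true) +
      (1 - p) * F (Function.update κ y false)) := by
  have h1 := sum_two y (fun κ => wt p κ * F κ)
  have h2 := sum_two y (fun κ => wt p κ * (p * F (Function.update κ y true) +
      (1 - p) * F (Function.update κ y false)))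
  have h3 : (2 : ℝ) * Ex p F = 2 * Ex p (fun κ => p * F (Function.update κ y true) +
      (1 - p) * F (Function.update κ y false)) := by
    unfold Ex
    rw [h1, h2]
    refine sum_congr rfl fun κ _ => ?_
    simp only [wt_update, Function.update_idem, if_true, Bool.false_eq_true, if_false]
    ring
  linarith

/-- Covariance with one coordinate. -/
lemma Ex_coord (p : ℝ) (y : ι) (g : (ι → Bool) → ℝ) :
    Ex p (fun κ => g κ * ((if κ y = true then (1 : ℝ) else 0) - p)) =
      p * (1 - p) * Ex p (DD g y) := by
  rw [Ex_split p y, ← Ex_mul_left]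
  congr 1
  funext κ
  simp only [Function.update_self, if_true, Bool.false_eq_true, if_false, DD]
  ring

/-- JOB L1. -/
theorem l1 : S_L1 := by
  intro ι _ _ p B g hp0 hp1 hB hg hr
  set π := Ex p g with hπ
  have hπ0 : 0 ≤ π := by
    have h := Ex_mono (ι := ι) hp0 hp1 (f := fun _ => 0) (g := g) (fun κ => (hg κ).1)
    rwa [Ex_const] at h
  have hB0 : 0 < B := by linarith
  -- the differences
  have hD : ∀ y κ, |DD g y κ| ≤ (B - 1) * g κ := by
    intro y κ
    obtain ⟨h1, h2⟩ := hr y κ
    have h0 := (hg (Function.update κ y true)).1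
    have h0' := (hg (Function.update κ y false)).1
    have hor : g κ = g (Function.update κ y true) ∨ g κ = g (Function.update κ y false) := by
      rcases hb : κ y with _ | _
      · right; rw [← hb, Function.update_eq_self]
      · left; rw [← hb, Function.update_eq_self]
    unfold DD
    rw [abs_le]
    rcases hor with h | h <;> rw [h] <;> constructor <;> nlinarith
  have hb : ∀ y, |Ex p (DD g y)| ≤ (B - 1) * π := by
    intro y
    rw [abs_le]
    constructor
    · rw [← neg_mul, hπ, ← Ex_mul_left]
      refine Ex_mono hp0 hp1 fun κ => ?_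
      have := (abs_le.1 (hD y κ)).1
      linarith
    · rw [hπ, ← Ex_mul_left]
      exact Ex_mono hp0 hp1 fun κ => (abs_le.1 (hD y κ)).2
  rcases hπ0.eq_or_lt with h0 | hpos
  · -- trivial case
    have hz : ∀ y, Ex p (DD g y) = 0 := by
      intro y
      have := hb y
      rw [← h0, mul_zero] at this
      exact abs_eq_zero.1 (le_antisymm this (abs_nonneg _))
    rw [← h0]
    simp [hz]
  set b : ι → ℝ := fun y => Ex p (DD g y) with hbdef
  set W := p * (1 - p) * ∑ y, (b y) ^ 2 with hW
  have hpp : 0 < p * (1 - p) := mul_pos hp0 (by linarith)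
  have hW0 : 0 ≤ W := mul_nonneg hpp.le (sum_nonneg fun y _ => sq_nonneg _)
  set lam := 1 / (2 * B * π) with hlam
  have hlam0 : 0 < lam := by positivity
  have hlb : ∀ y, |lam * b y| ≤ 1 / 2 := by
    intro y
    rw [abs_mul, abs_of_pos hlam0]
    calc lam * |b y| ≤ lam * (B * π) :=
          mul_le_mul_of_nonneg_left ((hb y).trans (by nlinarith)) hlam0.le
      _ = 1 / 2 := by rw [hlam]; field_simp
  -- the linear form
  set X : (ι → Bool) → ℝ := fun κ => ∑ y, b y * ((if κ y = true then (1 : ℝ) else 0) - p) with hX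
  have hgX : Ex p (fun κ => g κ * X κ) = W := by
    have e : (fun κ => g κ * X κ) = fun κ => ∑ y, b y *
        (g κ * ((if κ y = true then (1 : ℝ) else 0) - p)) := by
      funext κ
      rw [hX]
      simp only
      rw [mul_sum]
      exact sum_congr rfl fun y _ => by ring
    rw [e, Ex_sum]
    rw [hW, mul_sum]
    refine sum_congr rfl fun y _ => ?_
    rw [Ex_mul_left, Ex_coord]
    ring
  have hexp : Ex p (fun κ => Real.exp (lam * X κ)) ≤ Real.exp (lam ^ 2 * W) := by
    have e : (fun κ => Real.exp (lam * X κ)) = fun κ => ∏ y,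
        Real.exp (lam * b y * ((if κ y = true then (1 : ℝ) else 0) - p)) := by
      funext κ
      rw [← Real.exp_sum, hX]
      simp only
      rw [mul_sum]
      congr 1
      exact sum_congr rfl fun y _ => by ring
    rw [e]
    have h1 := Ex_prod (ι := ι) p
      (fun y c => Real.exp (lam * b y * ((if c = true then (1 : ℝ) else 0) - p)))
    rw [h1]
    have h2 : Real.exp (lam ^ 2 * W) = ∏ y, Real.exp ((lam * b y) ^ 2 * (p * (1 - p))) := by
      rw [← Real.exp_sum, hW, mul_sum, mul_sum]
      congr 1
      exact sum_congr rfl fun y _ => by ring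
    rw [h2]
    refine prod_le_prod (fun y _ => ?_) (fun y _ => ?_)
    · have : 0 < 1 - p := by linarith
      positivity
    · simp only [if_true, Bool.false_eq_true, if_false]
      have hq : ∀ u : ℝ, |u| ≤ 1 → Real.exp u ≤ 1 + u + u ^ 2 := by
        intro u hu
        have := Real.abs_exp_sub_one_sub_id_le hu
        have := (abs_le.1 this).2
        linarith
      have ha := hlb y
      set u := lam * b y with hu
      have hu1 := (abs_le.1 ha).1
      have hu2 := (abs_le.1 ha).2
      have e1 := hq (u * (1 - p)) (by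
        rw [abs_mul, abs_of_pos (by linarith : (0 : ℝ) < 1 - p)]
        nlinarith [abs_nonneg u])
      have e2 := hq (u * (0 - p)) (by
        rw [abs_mul, zero_sub, abs_neg, abs_of_pos hp0]
        nlinarith [abs_nonneg u])
      calc p * Real.exp (u * (1 - p)) + (1 - p) * Real.exp (u * (0 - p))
          ≤ p * (1 + u * (1 - p) + (u * (1 - p)) ^ 2) +
            (1 - p) * (1 + u * (0 - p) + (u * (0 - p)) ^ 2) :=
            add_le_add (mul_le_mul_of_nonneg_left e1 hp0.le)
              (mul_le_mul_of_nonneg_left e2 (by linarith))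
        _ = u ^ 2 * (p * (1 - p)) + 1 := by ring
        _ ≤ Real.exp (u ^ 2 * (p * (1 - p))) := Real.add_one_le_exp _
  -- the entropy step
  set c := lam ^ 2 * W + Real.log (1 / π) with hc
  have hkey : lam * W ≤ c * π := by
    have h1 : Ex p (fun κ => g κ * (lam * X κ - c + 1)) ≤
        Ex p (fun κ => Real.exp (-c) * Real.exp (lam * X κ)) := by
      refine Ex_mono hp0 hp1 fun κ => ?_
      have e1 := Real.add_one_le_exp (lam * X κ - c)
      have e2 : Real.exp (lam * X κ - c) = Real.exp (-c) * Real.exp (lam * X κ) := by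
        rw [← Real.exp_add]; congr 1; ring
      have e3 := (Real.exp_pos (lam * X κ - c)).le
      rw [← e2]
      calc g κ * (lam * X κ - c + 1) ≤ g κ * Real.exp (lam * X κ - c) :=
            mul_le_mul_of_nonneg_left e1 (hg κ).1
        _ ≤ 1 * Real.exp (lam * X κ - c) := mul_le_mul_of_nonneg_right (hg κ).2 e3
        _ = _ := one_mul _
    have h2 : Ex p (fun κ => g κ * (lam * X κ - c + 1)) = lam * W - c * π + π := by
      have e : (fun κ => g κ * (lam * X κ - c + 1)) =
          fun κ => lam * (g κ * X κ) + (1 - c) * g κ := by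
        funext κ; ring
      rw [e, Ex_add, Ex_mul_left, Ex_mul_left, hgX, ← hπ]
      ring
    rw [h2, Ex_mul_left] at h1
    have h3 : Real.exp (-c) * Ex p (fun κ => Real.exp (lam * X κ)) ≤ π := by
      calc _ ≤ Real.exp (-c) * Real.exp (lam ^ 2 * W) :=
            mul_le_mul_of_nonneg_left hexp (Real.exp_pos _).le
        _ = Real.exp (Real.log π) := by
            rw [← Real.exp_add, hc, one_div, Real.log_inv]; congr 1; ring
        _ = π := Real.exp_log hpos
    linarith
  have hfin : W ≤ 4 * B * π ^ 2 * Real.log (1 / π) := by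
    have h1 : lam * W ≤ (lam ^ 2 * W + Real.log (1 / π)) * π := hkey
    set l := Real.log (1 / π) with hl
    have h2 : W / (2 * B * π) ≤ (W / (2 * B * π) ^ 2 + l) * π := by
      have e1 : lam * W = W / (2 * B * π) := by rw [hlam]; ring
      have e2 : lam ^ 2 * W = W / (2 * B * π) ^ 2 := by rw [hlam]; ring
      rwa [e1, e2] at h1
    have h3 : W * (2 * B - 1) ≤ 4 * B ^ 2 * π ^ 2 * l := by
      have hx : 0 < 2 * B * π := by positivity
      rw [div_le_iff₀ hx] at h2
      have e : (W / (2 * B * π) ^ 2 + l) * π * (2 * B * π) = W / (2 * B) + 2 * B * π ^ 2 * l := by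
        field_simp
      rw [e] at h2
      have h4 : W * (2 * B) ≤ (W / (2 * B) + 2 * B * π ^ 2 * l) * (2 * B) :=
        mul_le_mul_of_nonneg_right h2 (by positivity)
      have e2 : (W / (2 * B) + 2 * B * π ^ 2 * l) * (2 * B) = W + 4 * B ^ 2 * π ^ 2 * l := by
        field_simp; ring
      rw [e2] at h4
      linarith
    have h5 : W * B ≤ (4 * B * π ^ 2 * l) * B := by
      calc W * B ≤ W * (2 * B - 1) := mul_le_mul_of_nonneg_left (by linarith) hW0
        _ ≤ 4 * B ^ 2 * π ^ 2 * l := h3
        _ = _ := by ring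
    exact le_of_mul_le_mul_right h5 hB0
  exact hfin

end

end Pool.Agent.Q150.PL
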